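import Pool.Agent.helper93.PX.Spec

/-!
# MP_2b41e9_nt: row px:DEN (common denominators)
-/

set_option autoImplicit false

namespace Pool.Agent.PX

open Polynomial

lemma DEN_one {β : ℝ} (hβ : IsIntegral ℤ β) {x : ℝ}
    (hx : x ∈ IntermediateField.adjoin ℚ ({β} : Set ℝ)) :
    ∃ N : ℕ, 0 < N ∧ (N : ℝ) * x ∈ Algebra.adjoin ℤ ({β} : Set ℝ) := by
  have hβq : IsIntegral ℚ β := hβ.tower_top
  have h1 : x ∈ (IntermediateField.adjoin ℚ ({β} : Set ℝ)).toSubalgebra := hx
  clear hx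
  rw [IntermediateField.adjoin_simple_toSubalgebra_of_isAlgebraic hβq.isAlgebraic] at h1
  induction h1 using Algebra.adjoin_induction with
  | mem y hy =>
    refine ⟨1, one_pos, ?_⟩
    rw [Nat.cast_one, one_mul]
    exact Algebra.subset_adjoin hy
  | algebraMap r =>
    refine ⟨r.den, r.pos, ?_⟩
    have h2 : (r.den : ℝ) * algebraMap ℚ ℝ r = algebraMap ℤ ℝ r.num := by
      have h3 : (r.den : ℚ) * r = r.num := by rw [mul_comm]; exact Rat.mul_den_eq_num r
      have h4 := congrArg (fun q : ℚ => (q : ℝ)) h3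
      push_cast at h4
      simpa using h4
    rw [h2]
    exact Subalgebra.algebraMap_mem _ _
  | add y z hy hz ihy ihz =>
    obtain ⟨N, hN, h2⟩ := ihy
    obtain ⟨M, hM, h3⟩ := ihz
    refine ⟨N * M, Nat.mul_pos hN hM, ?_⟩
    have h4 : ((N * M : ℕ) : ℝ) * (y + z) = (M : ℝ) * ((N : ℝ) * y) + (N : ℝ) * ((M : ℝ) * z) := by
      push_cast; ring
    rw [h4]
    exact add_mem (mul_mem (natCast_mem _ M) h2) (mul_mem (natCast_mem _ N) h3)
  | mul y z hy hz ihy ihz =>
    obtain ⟨N, hN, h2⟩ := ihy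
    obtain ⟨M, hM, h3⟩ := ihz
    refine ⟨N * M, Nat.mul_pos hN hM, ?_⟩
    have h4 : ((N * M : ℕ) : ℝ) * (y * z) = ((N : ℝ) * y) * ((M : ℝ) * z) := by
      push_cast; ring
    rw [h4]
    exact mul_mem h2 h3

theorem DEN : DEN_stmt := by
  intro β hβ F hF
  classical
  induction F using Finset.induction_on with
  | empty => exact ⟨1, one_pos, fun x hx => absurd hx (Finset.notMem_empty x)⟩
  | insert a s ha ih =>
    obtain ⟨N, hN, h1⟩ := ih fun x hx => hF x (Finset.mem_insert_of_mem hx)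
    obtain ⟨M, hM, h2⟩ := DEN_one hβ (hF a (Finset.mem_insert_self a s))
    refine ⟨N * M, Nat.mul_pos hN hM, ?_⟩
    intro x hx
    rcases Finset.mem_insert.1 hx with rfl | hx
    · have h3 : ((N * M : ℕ) : ℝ) * x = (N : ℝ) * ((M : ℝ) * x) := by push_cast; ring
      rw [h3]
      exact mul_mem (natCast_mem _ N) h2
    · have h3 : ((N * M : ℕ) : ℝ) * x = (M : ℝ) * ((N : ℝ) * x) := by push_cast; ring
      rw [h3]
      exact mul_mem (natCast_mem _ M) (h1 x hx)

end Pool.Agent.PX
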