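import Pool.Agent.helper66.PX.Spec2

set_option autoImplicit false

noncomputable section

namespace Pool.Agent.PX

universe u v

/-- the substitution: the sum of the `y j`, `j ∉ U`, `f j = i` -/
def ML_x {R : Type v} [Ring R] {d : ℕ} (f : Fin d → ℕ) (y : ℕ → R) (U : Finset (Fin d)) (i : ℕ) : R :=
  ∑ j ∈ Finset.univ.filter (fun j : Fin d => j ∉ U ∧ f j = i), y j.val

theorem ML_sum_sign {R : Type v} [Ring R] {d : ℕ} (T : Finset (Fin d)) (a : R) :
    ∑ U : Finset (Fin d), ((-1 : ℤ) ^ U.card) • (if Disjoint U T then a else 0)
      = if T = Finset.univ then a else 0 := by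
  classical
  have h1 : ∑ U : Finset (Fin d), ((-1 : ℤ) ^ U.card) • (if Disjoint U T then a else 0)
      = ∑ U ∈ (Tᶜ).powerset, ((-1 : ℤ) ^ U.card) • a := by
    rw [← Finset.sum_filter_add_sum_filter_not Finset.univ (fun U : Finset (Fin d) => Disjoint U T)]
    rw [Finset.sum_congr rfl (g := fun U : Finset (Fin d) => ((-1 : ℤ) ^ U.card) • a)
      (fun U hU => by rw [if_pos (Finset.mem_filter.1 hU).2])]
    rw [Finset.sum_eq_zero (s := Finset.filter (fun U : Finset (Fin d) => ¬ Disjoint U T) Finset.univ)
      (fun U hU => by rw [if_neg (Finset.mem_filter.1 hU).2, smul_zero]), add_zero]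
    refine Finset.sum_congr ?_ (fun _ _ => rfl)
    ext U
    rw [Finset.mem_filter, Finset.mem_powerset, Finset.subset_compl_iff_disjoint_right]
    simp
  rw [h1, ← Finset.sum_smul, Finset.sum_powerset_neg_one_pow_card]
  by_cases h : T = Finset.univ
  · rw [if_pos (by rw [h, Finset.compl_univ]), if_pos h, one_smul]
  · rw [if_neg (fun h' => h (by rwa [Finset.compl_eq_empty_iff] at h')), if_neg h, zero_smul]

theorem ML_W1 {R : Type v} [Ring R] {d : ℕ} (f : Fin d → ℕ) (y : ℕ → R) (w : List ℕ) :
    ∑ U : Finset (Fin d), ((-1 : ℤ) ^ U.card) • (w.map (ML_x f y U)).prod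
      = ∑ r ∈ Finset.univ.filter (fun r : Fin w.length → Fin d =>
          (∀ k, f (r k) = w.get k) ∧ Finset.univ.image r = Finset.univ),
          (List.ofFn (fun k => y (r k).val)).prod := by
  classical
  have h1 : ∀ U : Finset (Fin d), (w.map (ML_x f y U)).prod
      = ∑ r : Fin w.length → Fin d, (if (∀ k, f (r k) = w.get k) then
          (if Disjoint U (Finset.univ.image r) then (List.ofFn (fun k => y (r k).val)).prod else 0)
          else 0) := by
    intro U
    have e1 : w.map (ML_x f y U) = List.ofFn (fun k : Fin w.length => ML_x f y U (w.get k)) := by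
      conv_lhs => rw [← List.ofFn_get w]
      rw [List.map_ofFn]
      rfl
    rw [e1, ← MultilinearMap.mkPiAlgebraFin_apply (R := ℤ)]
    have e2 := (MultilinearMap.mkPiAlgebraFin ℤ w.length R).map_sum_finset
      (fun _ (j : Fin d) => y j.val)
      (fun k => Finset.univ.filter (fun j : Fin d => j ∉ U ∧ f j = w.get k))
    simp only [ML_x]
    rw [e2, ← Finset.sum_filter]
    rw [← Finset.sum_filter]
    refine Finset.sum_congr ?_ (fun r _ => ?_)
    · ext r
      simp only [Fintype.mem_piFinset, Finset.mem_filter, Finset.mem_univ, true_and]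
      constructor
      · intro h
        refine ⟨fun k => (h k).2, ?_⟩
        rw [Finset.disjoint_right]
        intro a ha
        rw [Finset.mem_image] at ha
        obtain ⟨k, -, rfl⟩ := ha
        exact (h k).1
      · rintro ⟨h1, h2⟩ k
        rw [Finset.disjoint_right] at h2
        exact ⟨h2 (Finset.mem_image_of_mem r (Finset.mem_univ k)), h1 k⟩
    · rw [MultilinearMap.mkPiAlgebraFin_apply]
  rw [Finset.sum_congr rfl (fun U _ => by rw [h1 U, Finset.smul_sum])]
  rw [Finset.sum_comm, Finset.sum_filter]
  refine Finset.sum_congr rfl (fun r _ => ?_)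
  by_cases h2 : ∀ k, f (r k) = w.get k
  · have h3 : ∀ U : Finset (Fin d), ((-1 : ℤ) ^ U.card) • (if (∀ k, f (r k) = w.get k) then
          (if Disjoint U (Finset.univ.image r) then (List.ofFn (fun k => y (r k).val)).prod else 0)
          else 0) = ((-1 : ℤ) ^ U.card) • (if Disjoint U (Finset.univ.image r) then
            (List.ofFn (fun k => y (r k).val)).prod else 0) := by
      intro U
      rw [if_pos h2]
    rw [Finset.sum_congr rfl (fun U _ => h3 U), ML_sum_sign]
    by_cases h4 : Finset.univ.image r = Finset.univ
    · rw [if_pos h4, if_pos ⟨h2, h4⟩]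
    · rw [if_neg h4, if_neg (fun h => h4 h.2)]
  · rw [if_neg (fun h => h2 h.1)]
    refine Finset.sum_eq_zero (fun U _ => ?_)
    rw [if_neg h2, smul_zero]

theorem ML_W2 {R : Type v} [Ring R] {d : ℕ} (f : Fin d → ℕ) (f' : ℕ → ℕ)
    (hf : ∀ j : Fin d, f' j.val = f j) (y : ℕ → R) (w : List ℕ) (hw : w.length ≤ d) :
    ∑ r ∈ Finset.univ.filter (fun r : Fin w.length → Fin d =>
          (∀ k, f (r k) = w.get k) ∧ Finset.univ.image r = Finset.univ),
          (List.ofFn (fun k => y (r k).val)).prod
      = ∑ v ∈ (List.range d).permutations.toFinset.filter (fun v => v.map f' = w),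
          (v.map y).prod := by
  classical
  refine Finset.sum_bij (fun r _ => List.ofFn (fun k => (r k).val)) ?_ ?_ ?_ ?_
  · intro r hr
    rw [Finset.mem_filter] at hr
    obtain ⟨-, hr1, hr2⟩ := hr
    have hsurj : Function.Surjective r := by
      intro j
      have : j ∈ Finset.univ.image r := by
        rw [hr2]
        exact Finset.mem_univ j
      rw [Finset.mem_image] at this
      obtain ⟨k, -, hk⟩ := this
      exact ⟨k, hk⟩
    have hcard : w.length = d := by
      apply le_antisymm hw
      have := Fintype.card_le_of_surjective r hsurj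
      rwa [Fintype.card_fin, Fintype.card_fin] at this
    have hinj : Function.Injective r :=
      ((Fintype.bijective_iff_surjective_and_card r).2 ⟨hsurj, by
        rw [Fintype.card_fin, Fintype.card_fin, hcard]⟩).1
    rw [Finset.mem_filter, List.mem_toFinset, List.mem_permutations]
    constructor
    · rw [List.perm_ext_iff_of_nodup]
      · intro a
        rw [List.mem_ofFn, List.mem_range]
        constructor
        · rintro ⟨k, rfl⟩
          exact (r k).2
        · intro ha
          obtain ⟨k, hk⟩ := hsurj ⟨a, ha⟩
          exact ⟨k, by rw [hk]⟩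
      · rw [List.nodup_ofFn]
        intro a b hab
        exact hinj (Fin.ext hab)
      · exact List.nodup_range
    · rw [List.map_ofFn]
      conv_rhs => rw [← List.ofFn_get w]
      congr 1
      funext k
      rw [Function.comp_apply, hf, hr1]
  · intro r _ r' _ h
    have h1 := List.ofFn_injective h
    funext k
    exact Fin.ext (congrFun h1 k)
  · intro v hv
    rw [Finset.mem_filter, List.mem_toFinset, List.mem_permutations] at hv
    obtain ⟨hv1, hv2⟩ := hv
    have hlen : v.length = w.length := by rw [← hv2, List.length_map]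
    have hlt : ∀ k : Fin w.length, v.get (Fin.cast hlen.symm k) < d := by
      intro k
      have : v.get (Fin.cast hlen.symm k) ∈ List.range d := hv1.mem_iff.1 (List.get_mem v _)
      rwa [List.mem_range] at this
    refine ⟨fun k => ⟨v.get (Fin.cast hlen.symm k), hlt k⟩, ?_, ?_⟩
    · rw [Finset.mem_filter]
      refine ⟨Finset.mem_univ _, fun k => ?_, ?_⟩
      · rw [← hf]
        subst hv2
        simp
      · rw [Finset.eq_univ_iff_forall]
        intro j
        have : j.val ∈ v := hv1.mem_iff.2 (List.mem_range.2 j.2)
        rw [List.mem_iff_get] at this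
        obtain ⟨k, hk⟩ := this
        rw [Finset.mem_image]
        exact ⟨Fin.cast hlen k, Finset.mem_univ _, Fin.ext (by simpa using hk)⟩
    · apply List.ext_get
      · rw [List.length_ofFn, hlen]
      · intro n h1 h2
        simp
  · intro r _
    rw [List.map_ofFn]
    rfl

theorem ML_lift {K : Type u} {R : Type v} [Field K] [Ring R] [Algebra K R] (p : FreeAlgebra K ℕ)
    (x : ℕ → R) : FreeAlgebra.lift K x p
      = ∑ w ∈ (FreeAlgebra.equivMonoidAlgebraFreeMonoid p).coeff.support,
          (FreeAlgebra.equivMonoidAlgebraFreeMonoid p).coeff w •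
            ((FreeMonoid.toList w).map x).prod := by
  have h1 : FreeAlgebra.lift K x = (MonoidAlgebra.lift K R (FreeMonoid ℕ) (FreeMonoid.lift x)).comp
      (FreeAlgebra.equivMonoidAlgebraFreeMonoid (R := K) (X := ℕ)).toAlgHom := by
    apply FreeAlgebra.hom_ext
    funext i
    simp [FreeAlgebra.equivMonoidAlgebraFreeMonoid]
  rw [h1]
  change MonoidAlgebra.lift K R (FreeMonoid ℕ) (FreeMonoid.lift x)
    (FreeAlgebra.equivMonoidAlgebraFreeMonoid p) = _
  rw [MonoidAlgebra.lift_apply]
  unfold Finsupp.sum
  refine Finset.sum_congr rfl (fun w _ => ?_)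
  beta_reduce
  rw [FreeMonoid.lift_apply]

theorem ML : ML_stmt.{u, v} := by
  classical
  intro K R _ _ _ I W p hp hid
  let q := (FreeAlgebra.equivMonoidAlgebraFreeMonoid p).coeff
  have hq : q ≠ 0 := by
    intro h
    apply hp
    have : FreeAlgebra.equivMonoidAlgebraFreeMonoid p = 0 := by
      apply MonoidAlgebra.coeff_injective
      exact h
    simpa using this
  obtain ⟨w₀, hw₀, hmax⟩ := Finset.exists_max_image q.support
    (fun w => (FreeMonoid.toList w).length) (Finsupp.support_nonempty_iff.2 hq)
  let w1 : List ℕ := FreeMonoid.toList w₀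
  let d := w1.length
  let f : Fin d → ℕ := fun k => w1.get k
  let f' : ℕ → ℕ := fun n => w1.getD n 0
  have hf : ∀ j : Fin d, f' j.val = f j := by
    intro j
    simp only [f', f, List.get_eq_getElem]
    exact List.getD_eq_getElem _ _ j.2
  refine ⟨d, List.range d, fun v => q (FreeMonoid.ofList (v.map f')), List.nodup_range,
    List.length_range, ⟨List.range d, List.Perm.refl _, ?_⟩, ?_⟩
  · have : (List.range d).map f' = w1 := by
      apply List.ext_get
      · simp [d]
      · intro n h1 h2
        simp only [List.get_eq_getElem, List.getElem_map, List.getElem_range, f']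
        exact List.getD_eq_getElem _ _ h2
    change q (FreeMonoid.ofList ((List.range d).map f')) ≠ 0
    rw [this]
    exact Finsupp.mem_support_iff.1 hw₀
  · intro y hy
    have key : EV (fun v => q (FreeMonoid.ofList (v.map f'))) (List.range d) y
        = ∑ U : Finset (Fin d), ((-1 : ℤ) ^ U.card) • FreeAlgebra.lift K (ML_x f y U) p := by
      have e1 : ∀ U : Finset (Fin d), FreeAlgebra.lift K (ML_x f y U) p
          = ∑ w ∈ q.support, q w • ((FreeMonoid.toList w).map (ML_x f y U)).prod :=
        fun U => ML_lift p _
      have e2 : ∑ U : Finset (Fin d), ((-1 : ℤ) ^ U.card) • FreeAlgebra.lift K (ML_x f y U) p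
          = ∑ w ∈ q.support, q w • ∑ U : Finset (Fin d),
            ((-1 : ℤ) ^ U.card) • ((FreeMonoid.toList w).map (ML_x f y U)).prod := by
        rw [Finset.sum_congr rfl (fun U _ => by rw [e1 U, Finset.smul_sum])]
        rw [Finset.sum_comm]
        refine Finset.sum_congr rfl (fun w _ => ?_)
        rw [Finset.smul_sum]
        refine Finset.sum_congr rfl (fun U _ => ?_)
        rw [smul_comm]
      rw [e2]
      have e3 : ∀ w ∈ q.support, q w • ∑ U : Finset (Fin d),
            ((-1 : ℤ) ^ U.card) • ((FreeMonoid.toList w).map (ML_x f y U)).prod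
          = ∑ v ∈ (List.range d).permutations.toFinset.filter
              (fun v => v.map f' = FreeMonoid.toList w), q w • (v.map y).prod := by
        intro w hw
        rw [ML_W1, ML_W2 f f' hf y _ (hmax w hw), Finset.smul_sum]
      rw [Finset.sum_congr rfl e3]
      unfold EV
      rw [Finset.sum_congr rfl (fun w _ => Finset.sum_filter _ _)]
      rw [Finset.sum_comm]
      refine Finset.sum_congr rfl (fun v _ => ?_)
      have e4 : ∀ w : FreeMonoid ℕ, (v.map f' = FreeMonoid.toList w) ↔
          (FreeMonoid.ofList (v.map f') = w) := by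
        intro w
        constructor
        · intro h
          rw [h]
          rfl
        · intro h
          rw [← h]
          rfl
      rw [Finset.sum_congr rfl (fun w _ => by rw [if_congr (e4 w) rfl rfl])]
      rw [Finset.sum_ite_eq]
      by_cases h : FreeMonoid.ofList (v.map f') ∈ q.support
      · rw [if_pos h]
      · rw [if_neg h]
        rw [Finsupp.notMem_support_iff] at h
        change q (FreeMonoid.ofList (v.map f')) • _ = 0
        rw [h, zero_smul]
    rw [key]
    refine Submodule.sum_mem _ (fun U _ => ?_)
    have h1 : FreeAlgebra.lift K (ML_x f y U) p ∈ W := by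
      apply hid
      intro i
      exact Submodule.sum_mem _ (fun j _ => hy _)
    exact zsmul_mem h1 _

end Pool.Agent.PX
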